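import Pool.Agent.H21.BS.TB

/-!
# Row BES of bes_modules: the Bessel inequality over all levels
-/

set_option autoImplicit false

open Finset Pool.Agent.H6.N4D Pool.Agent.H21.BS

namespace Pool.Agent.H8.BS

lemma av_add (a N : ℕ) (f g : ℕ → ℂ) : av a N (fun n => f n + g n) = av a N f + av a N g := by
  unfold av
  rw [sum_add_distrib, add_div]

lemma av_sum {ι : Type*} (a N : ℕ) (s : Finset ι) (f : ι → ℕ → ℂ) :
    av a N (fun n => ∑ i ∈ s, f i n) = ∑ i ∈ s, av a N (f i) := by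
  unfold av
  rw [sum_comm, sum_div]

lemma av_conj (a N : ℕ) (f : ℕ → ℂ) :
    av a N (fun n => starRingEnd ℂ (f n)) = starRingEnd ℂ (av a N f) := by
  unfold av
  rw [map_div₀, map_sum, Complex.conj_natCast]

lemma av_re (a N : ℕ) (f : ℕ → ℂ) : (av a N f).re = avr a N fun n => (f n).re := by
  unfold av avr
  rw [Complex.div_natCast_re, Complex.re_sum]

lemma avr_nonneg (a N : ℕ) (f : ℕ → ℝ) (h : ∀ n, 0 ≤ f n) : 0 ≤ avr a N f :=
  div_nonneg (sum_nonneg fun _ _ => h _) (Nat.cast_nonneg _)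

lemma avr_mono (a N : ℕ) (f g : ℕ → ℝ) (h : ∀ n, f n ≤ g n) : avr a N f ≤ avr a N g :=
  div_le_div_of_nonneg_right (sum_le_sum fun _ _ => h _) (Nat.cast_nonneg _)

lemma avr_add (a N : ℕ) (f g : ℕ → ℝ) :
    avr a N (fun n => f n + g n) = avr a N f + avr a N g := by
  unfold avr
  rw [sum_add_distrib, add_div]

lemma avr_mul (a N : ℕ) (c : ℝ) (f : ℕ → ℝ) :
    avr a N (fun n => c * f n) = c * avr a N f := by
  unfold avr
  rw [← mul_sum, mul_div_assoc]

/-- the mean square of a sum -/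
lemma sq_sum (a N K : ℕ) (O : ℕ → ℕ → ℂ) :
    avr a N (fun n => ‖∑ i ∈ Icc 1 K, O i n‖ ^ 2) =
      ∑ i ∈ Icc 1 K, ∑ j ∈ Icc 1 K,
        (av a N fun n => O i n * starRingEnd ℂ (O j n)).re := by
  have h1 : ∀ n, ‖∑ i ∈ Icc 1 K, O i n‖ ^ 2 =
      (∑ i ∈ Icc 1 K, ∑ j ∈ Icc 1 K, O i n * starRingEnd ℂ (O j n)).re := by
    intro n
    have h2 : ∑ i ∈ Icc 1 K, ∑ j ∈ Icc 1 K, O i n * starRingEnd ℂ (O j n) =
        (∑ i ∈ Icc 1 K, O i n) * starRingEnd ℂ (∑ i ∈ Icc 1 K, O i n) := by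
      rw [map_sum, sum_mul_sum]
    rw [h2, Complex.mul_conj, Complex.ofReal_re, Complex.normSq_eq_norm_sq]
  simp only [h1]
  rw [← av_re, av_sum, Complex.re_sum]
  refine sum_congr rfl fun i _ => ?_
  rw [av_sum, Complex.re_sum]

theorem pf_BES (hOM1 : T_OM1) (hOM2 : T_OM2) (hOM3 : T_OM3) (hOM4 : T_OM4)
    (_hLVL : T_LVL) : T_BES := by
  intro W
  obtain ⟨C1, hC1, h1⟩ := hOM1 W
  obtain ⟨C2, hC2, h2⟩ := hOM2 W
  obtain ⟨C3, hC3, h3⟩ := hOM3 W
  refine ⟨2 * (C1 + C2 + C3), by positivity, ?_⟩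
  intro S R f F hS hf hF
  obtain ⟨hc, h4⟩ := hOM4 W S f hS hf
  set δ : ℝ := (S.s 0 : ℝ) ^ (-(1 / 5) : ℝ) with hδ
  have hδ0 : 0 ≤ δ := Real.rpow_nonneg (Nat.cast_nonneg _) _
  set O : ℕ → ℕ → ℂ := fun i n => S.Om (S.cf f) i n with hO
  set e : ℕ → ℝ := fun i => (S.N i : ℝ) / S.L * ∑ k ∈ range (S.cnt i), ∑ q ∈ S.Q i,
        1 / (q : ℝ) * S.Z f i k q ^ 2 with he
  have hE : S.E f = ∑ i ∈ Icc 1 S.K, e i := rfl
  set D : ℝ := avr S.U S.L (fun n => ‖f n - F n‖ ^ 2) with hD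
  set B : ℝ := avr S.U S.L (fun n => ‖∑ i ∈ Icc 1 S.K, O i n‖ ^ 2) with hB
  have hD0 : 0 ≤ D := avr_nonneg _ _ _ fun n => by positivity
  have hK0 : (0 : ℝ) ≤ S.K := Nat.cast_nonneg _
  have hR0 : (0 : ℝ) ≤ R := Nat.cast_nonneg _
  -- the mean square of the sum of the dual functions
  have hB1 : B ≤ S.E f + (S.K * C1 + S.K ^ 2 * C2) * δ := by
    rw [hB, sq_sum]
    have h5 : ∀ i ∈ Icc 1 S.K, ∑ j ∈ Icc 1 S.K,
        (av S.U S.L fun n => O i n * starRingEnd ℂ (O j n)).re ≤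
          (e i + C1 * δ) + S.K * (C2 * δ) := by
      intro i hi
      rw [mem_Icc] at hi
      have h6 : ∀ j ∈ Icc 1 S.K, (av S.U S.L fun n => O i n * starRingEnd ℂ (O j n)).re ≤
          (if j = i then e i + C1 * δ else 0) + C2 * δ := by
        intro j hj
        rw [mem_Icc] at hj
        rcases lt_trichotomy j i with hji | hji | hji
        · rw [if_neg hji.ne, zero_add]
          have h7 : (fun n => O i n * starRingEnd ℂ (O j n)) =
              fun n => starRingEnd ℂ (O j n * starRingEnd ℂ (O i n)) := by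
            funext n
            rw [map_mul, Complex.conj_conj, mul_comm]
          rw [h7, av_conj, Complex.conj_re]
          exact (Complex.re_le_norm _).trans (h2 S (S.cf f) hS hc j i hj.1 hji hi.2)
        · subst hji
          rw [if_pos rfl]
          have h7 : (av S.U S.L fun n => O j n * starRingEnd ℂ (O j n)).re =
              avr S.U S.L (fun n => ‖O j n‖ ^ 2) := by
            rw [av_re]
            congr 1
            funext n
            rw [Complex.mul_conj, Complex.ofReal_re, Complex.normSq_eq_norm_sq]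
          rw [h7]
          have h8 := h1 S (S.cf f) hS hc j hj.1 hj.2
          rw [(h4 j hj.1 hj.2).1] at h8
          have h9 : 0 ≤ C2 * δ := mul_nonneg hC2 hδ0
          linarith
        · rw [if_neg hji.ne', zero_add]
          exact (Complex.re_le_norm _).trans (h2 S (S.cf f) hS hc i j hi.1 hji hj.2)
      refine (sum_le_sum h6).trans (le_of_eq ?_)
      rw [sum_add_distrib, sum_ite_eq' (Icc 1 S.K) i, if_pos (mem_Icc.2 hi), sum_const,
        Nat.card_Icc, nsmul_eq_mul, Nat.add_sub_cancel]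
    refine (sum_le_sum h5).trans (le_of_eq ?_)
    rw [sum_add_distrib, sum_add_distrib, sum_const, sum_const, Nat.card_Icc,
      Nat.add_sub_cancel, nsmul_eq_mul, nsmul_eq_mul, hE]
    ring
  -- the energy as an inner product
  have hE1 : S.E f = (av S.U S.L fun n => f n * starRingEnd ℂ (∑ i ∈ Icc 1 S.K, O i n)).re := by
    have h5 : (fun n => f n * starRingEnd ℂ (∑ i ∈ Icc 1 S.K, O i n)) =
        fun n => ∑ i ∈ Icc 1 S.K, f n * starRingEnd ℂ (O i n) := by
      funext n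
      rw [map_sum, mul_sum]
    rw [h5, av_sum, Complex.re_sum, hE]
    refine sum_congr rfl fun i hi => ?_
    rw [mem_Icc] at hi
    rw [(h4 i hi.1 hi.2).2, Complex.ofReal_re]
  have hE2 : S.E f ≤ (D + B / 4) + S.K * (C3 * R * δ) := by
    have h5 : (fun n => f n * starRingEnd ℂ (∑ i ∈ Icc 1 S.K, O i n)) =
        fun n => (f n - F n) * starRingEnd ℂ (∑ i ∈ Icc 1 S.K, O i n) +
          ∑ i ∈ Icc 1 S.K, F n * starRingEnd ℂ (O i n) := by
      funext n
      rw [← mul_sum, ← map_sum]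
      ring
    rw [hE1, h5, av_add, Complex.add_re, av_sum, Complex.re_sum]
    refine add_le_add ?_ ?_
    · rw [av_re, hD, hB]
      have h6 : avr S.U S.L (fun n => ‖f n - F n‖ ^ 2) +
          avr S.U S.L (fun n => ‖∑ i ∈ Icc 1 S.K, O i n‖ ^ 2) / 4 =
          avr S.U S.L (fun n => ‖f n - F n‖ ^ 2 + 1 / 4 * ‖∑ i ∈ Icc 1 S.K, O i n‖ ^ 2) := by
        rw [avr_add, avr_mul]
        ring
      rw [h6]
      refine avr_mono _ _ _ _ fun n => ?_
      refine (Complex.re_le_norm _).trans ?_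
      rw [norm_mul, RCLike.norm_conj]
      nlinarith [sq_nonneg (‖f n - F n‖ - 1 / 2 * ‖∑ i ∈ Icc 1 S.K, O i n‖)]
    · have h6 : ∀ i ∈ Icc 1 S.K, (av S.U S.L fun n => F n * starRingEnd ℂ (O i n)).re ≤
          C3 * R * δ := by
        intro i hi
        rw [mem_Icc] at hi
        exact (Complex.re_le_norm _).trans (h3 S (S.cf f) R F hS hc hF i hi.1 hi.2)
      refine (sum_le_sum h6).trans (le_of_eq ?_)
      rw [sum_const, Nat.card_Icc, Nat.add_sub_cancel, nsmul_eq_mul]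
  have hKK : (S.K : ℝ) ≤ (S.K : ℝ) ^ 2 := by
    rcases Nat.eq_zero_or_pos S.K with h | h
    · rw [h]
      norm_num
    · have : (1 : ℝ) ≤ S.K := by exact_mod_cast h
      nlinarith
  have hE0 : 0 ≤ S.E f := by
    rw [hE]
    refine sum_nonneg fun i _ => ?_
    refine mul_nonneg (by positivity) (sum_nonneg fun k _ => sum_nonneg fun q _ => ?_)
    positivity
  have h7 : (S.K * C1 + S.K ^ 2 * C2) * δ ≤ (C1 + C2) * (S.K : ℝ) ^ 2 * δ := by
    have : S.K * C1 + (S.K : ℝ) ^ 2 * C2 ≤ (C1 + C2) * (S.K : ℝ) ^ 2 := by nlinarith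
    exact mul_le_mul_of_nonneg_right this hδ0
  have h8 : 0 ≤ (C1 + C2) * (S.K : ℝ) ^ 2 * δ := by positivity
  have h9 : 0 ≤ C3 * (S.K * R) * δ := by positivity
  have h10 : 0 ≤ C3 * (S.K : ℝ) ^ 2 * δ := by positivity
  have h11 : 0 ≤ (C1 + C2) * (S.K * R) * δ := by positivity
  have h12 : S.E f ≤ 4 / 3 * D + 1 / 3 * ((C1 + C2) * (S.K : ℝ) ^ 2 * δ) +
      4 / 3 * (C3 * (S.K * R) * δ) := by
    have : (S.K : ℝ) * (C3 * R * δ) = C3 * (S.K * R) * δ := by ring
    linarith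
  calc S.E f ≤ 2 * D + 2 * ((C1 + C2) * (S.K : ℝ) ^ 2 * δ) + 2 * (C3 * (S.K * R) * δ) := by
        linarith
    _ ≤ 2 * D + 2 * (C1 + C2 + C3) * ((S.K : ℝ) ^ 2 + S.K * R) * δ := by linarith

end Pool.Agent.H8.BS
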