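import Pool.Agent.H21.BS.TB

/-!
# Row BP of bes_modules: few bad quadruples, few bad pairs
-/

set_option autoImplicit false

open Finset Pool.Agent.H6.N4D Pool.Agent.H21.BS

namespace Pool.Agent.H8.BS

/-- sums over quadruples as sums over pairs of pairs -/
theorem sum_quad (Q : Finset ℕ) (f : (Fin 4 → ℕ) → ℝ) :
    ∑ q ∈ Fintype.piFinset (fun _ : Fin 4 => Q), f q =
      ∑ x ∈ Q ×ˢ Q, ∑ y ∈ Q ×ˢ Q, f ![x.1, x.2, y.1, y.2] := by
  rw [← sum_product']
  refine sum_nbij' (fun q => ((q 0, q 1), (q 2, q 3)))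
    (fun z => ![z.1.1, z.1.2, z.2.1, z.2.2]) ?_ ?_ ?_ ?_ ?_
  · intro q hq
    rw [Fintype.mem_piFinset] at hq
    simp only [mem_product]
    exact ⟨⟨hq 0, hq 1⟩, hq 2, hq 3⟩
  · intro z hz
    simp only [mem_product] at hz
    rw [Fintype.mem_piFinset]
    intro j
    fin_cases j
    · exact hz.1.1
    · exact hz.1.2
    · exact hz.2.1
    · exact hz.2.2
  · intro q _
    funext j
    fin_cases j <;> rfl
  · intro z _
    rfl
  · intro q _
    have h : q = ![q 0, q 1, q 2, q 3] := by
      funext j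
      fin_cases j <;> rfl
    exact congrArg f h

/-- two bad pairs give a bad quadruple -/
theorem bad_of_bad2 (N : ℕ) (κ : ℝ) (α : ℕ → ℝ) (hκ : 0 < κ) (hN : 0 < N) (q : Fin 4 → ℕ)
    (h1 : Bad2 N κ α (q 0) (q 1)) (h2 : Bad2 N κ α (q 2) (q 3)) : Bad N κ α q := by
  obtain ⟨-, b, c, hb, hc, h3⟩ := h1
  obtain ⟨-, b', c', hb', hc', h4⟩ := h2
  refine ⟨![b, c, -b', -c'], ?_, ?_⟩
  · intro j
    fin_cases j
    · exact hb
    · exact hc
    · simpa using hb'
    · simpa using hc'
  · have h5 : α (q 0) - α (q 1) - α (q 2) + α (q 3) -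
        ∑ j, ((![b, c, -b', -c'] : Fin 4 → ℤ) j : ℝ) / q j =
        (α (q 0) - α (q 1) - (b : ℝ) / q 0 - (c : ℝ) / q 1) -
        (α (q 2) - α (q 3) - (b' : ℝ) / q 2 - (c' : ℝ) / q 3) := by
      rw [Fin.sum_univ_four]
      simp only [Matrix.cons_val_zero, Matrix.cons_val_one, Matrix.cons_val]
      push_cast
      ring
    rw [h5]
    refine (nd_sub_le _ _).trans ((add_le_add h3 h4).trans (le_of_eq ?_))
    have hN' : (0 : ℝ) < N := by exact_mod_cast hN
    field_simp
    ring

open Classical in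
theorem pf_BP (hTUP : T_TUP) : T_BP := by
  intro N P κ W Q α hκ hN hQ hP hW
  set F : ℕ × ℕ → ℝ := fun x => if Bad2 N κ α x.1 x.2 then 1 / (x.1 : ℝ) * (1 / x.2) else 0
    with hF
  have h1 : badmass2 N κ Q α = ∑ x ∈ Q ×ˢ Q, F x := by
    unfold badmass2
    rw [sum_product]
  have h2 : badmass2 N κ Q α ^ 2 =
      ∑ q ∈ Fintype.piFinset (fun _ : Fin 4 => Q), F (q 0, q 1) * F (q 2, q 3) := by
    rw [sum_quad, h1, pow_two, sum_mul_sum]
    refine sum_congr rfl fun x _ => sum_congr rfl fun y _ => ?_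
    rfl
  have h3 : badmass N κ Q α + ∑ q ∈ (Fintype.piFinset fun _ : Fin 4 => Q).filter
      (fun q => ¬ Function.Injective q), ∏ j, 1 / (q j : ℝ) =
      ∑ q ∈ Fintype.piFinset (fun _ : Fin 4 => Q),
        ((if Function.Injective q ∧ Bad N κ α q then ∏ j, 1 / (q j : ℝ) else 0) +
        (if ¬ Function.Injective q then ∏ j, 1 / (q j : ℝ) else 0)) := by
    rw [sum_add_distrib, ← sum_filter, ← sum_filter]
    rfl
  have h4 := hTUP Q W P hQ hP hW
  calc badmass2 N κ Q α ^ 2 = _ := h2
    _ ≤ badmass N κ Q α + ∑ q ∈ (Fintype.piFinset fun _ : Fin 4 => Q).filter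
      (fun q => ¬ Function.Injective q), ∏ j, 1 / (q j : ℝ) := by
        rw [h3]
        refine sum_le_sum fun q _ => ?_
        have hp : (0 : ℝ) ≤ ∏ j, 1 / (q j : ℝ) := prod_nonneg fun j _ => by positivity
        by_cases hb : Bad2 N κ α (q 0) (q 1) ∧ Bad2 N κ α (q 2) (q 3)
        · have h5 : F (q 0, q 1) * F (q 2, q 3) = ∏ j, 1 / (q j : ℝ) := by
            simp only [hF, hb.1, hb.2, if_true, Fin.prod_univ_four]
            ring
          rw [h5]
          by_cases hi : Function.Injective q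
          · rw [if_pos ⟨hi, bad_of_bad2 N κ α hκ hN q hb.1 hb.2⟩]
            rw [if_neg (not_not.2 hi), add_zero]
          · rw [if_pos hi]
            have : (0 : ℝ) ≤ if Function.Injective q ∧ Bad N κ α q then ∏ j, 1 / (q j : ℝ)
                else 0 := by
              split_ifs
              all_goals first | exact hp | exact le_rfl
            linarith
        · have h5 : F (q 0, q 1) * F (q 2, q 3) = 0 := by
            rw [not_and_or] at hb
            rcases hb with hb | hb
            · simp only [hF, hb, if_false, zero_mul]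
            · simp only [hF, hb, if_false, mul_zero]
          rw [h5]
          have h6 : (0 : ℝ) ≤ if Function.Injective q ∧ Bad N κ α q then ∏ j, 1 / (q j : ℝ)
                else 0 := by
              split_ifs
              all_goals first | exact hp | exact le_rfl
          have h7 : (0 : ℝ) ≤ if ¬ Function.Injective q then ∏ j, 1 / (q j : ℝ) else 0 := by
            split_ifs
            all_goals first | exact hp | exact le_rfl
          linarith
    _ ≤ badmass N κ Q α + 6 * W ^ 3 / P := by linarith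

end Pool.Agent.H8.BS
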